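import Pool.Agent.Y318.MH.Stm
import Pool.Agent.Y318.LF.Lift

/-!
# LaSalle's principle on the torus
-/

set_option autoImplicit false

open Set Filter Topology MeasureTheory

namespace Pool.Agent.Y210.MH

open Pool.Agent.H728R2.OS Pool.Agent.Y318.LF Pool.Agent.Y318.MH

theorem quot_toTorus {d : ℕ} : IsOpenQuotientMap (toTorus : (Fin d → ℝ) → Torus d) := by
  have h : ∀ _ : Fin d, IsOpenQuotientMap (fun x : ℝ => (x : UnitAddCircle)) := fun _ =>
    QuotientAddGroup.isOpenQuotientMap_mk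
  exact IsOpenQuotientMap.piMap h

section

variable {X : Type*} [TopologicalSpace X] [CompactSpace X] [T2Space X]

/-- a curve whose limit points form a finite set converges -/
theorem conv_of_finite {u : ℝ → X} (hu : Continuous u) {Z : Set X} (hZ : Z.Finite)
    (h : ∀ q, MapClusterPt q atTop u → q ∈ Z) : ∃ p ∈ Z, Tendsto u atTop (𝓝 p) := by
  obtain ⟨q, hq⟩ := exists_clusterPt_of_compactSpace (map u atTop)
  have hq : MapClusterPt q atTop u := hq
  have hqZ := h q hq
  refine ⟨q, hqZ, ?_⟩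
  obtain ⟨U₁, U₂, hU₁, hU₂, hq₁, hZ₂, hdis⟩ :=
    SeparatedNhds.of_isCompact_isCompact (Set.finite_singleton q).isCompact
      (hZ.sdiff (t := {q})).isCompact disjoint_sdiff_right
  rw [tendsto_def]
  intro W hW
  obtain ⟨W', hW'W, hW'o, hqW'⟩ := mem_nhds_iff.1 hW
  have hev : ∀ᶠ t in atTop, u t ∈ (U₁ ∩ W') ∪ U₂ := by
    by_contra hcon
    rw [not_eventually] at hcon
    have hK : IsCompact ((U₁ ∩ W') ∪ U₂)ᶜ :=
      (((hU₁.inter hW'o).union hU₂).isClosed_compl).isCompact
    obtain ⟨a, haK, ha⟩ := hK.exists_mapClusterPt_of_frequently hcon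
    apply haK
    by_cases haq : a = q
    · exact Or.inl ⟨haq ▸ hq₁ rfl, haq ▸ hqW'⟩
    · exact Or.inr (hZ₂ ⟨h a ha, haq⟩)
  obtain ⟨T, hT⟩ := eventually_atTop.1 hev
  have hpre : IsPreconnected (u '' Ici T) := isPreconnected_Ici.image u hu.continuousOn
  have hsub : u '' Ici T ⊆ U₁ ∩ W' := by
    refine hpre.subset_left_of_subset_union (hU₁.inter hW'o) hU₂
      (hdis.mono_left inter_subset_left) ?_ ?_
    · rintro _ ⟨t, ht, rfl⟩
      exact hT t ht
    · have hfr := (mapClusterPt_iff_frequently.1 hq) (U₁ ∩ W')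
        ((hU₁.inter hW'o).mem_nhds ⟨hq₁ rfl, hqW'⟩)
      obtain ⟨t, ht, ht'⟩ := (hfr.and_eventually (eventually_ge_atTop T)).exists
      exact ⟨u t, ⟨t, ht', rfl⟩, ht⟩
  filter_upwards [eventually_ge_atTop T] with t ht
  exact hW'W (hsub ⟨t, ht, rfl⟩).2

omit [CompactSpace X] in
theorem omega_of_tendsto {Φ : ℝ → X → X} {x p : X} (h : Tendsto (fun t => Φ t x) atTop (𝓝 p)) :
    omegaFlow Φ x = {p} := by
  ext q
  rw [mem_singleton_iff]
  constructor
  · intro hq
    by_contra hne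
    obtain ⟨U, V, hU, hV, hqU, hpV, hUV⟩ := t2_separation hne
    obtain ⟨T, hT⟩ := eventually_atTop.1 (h (hV.mem_nhds hpV))
    obtain ⟨t, ht, htU⟩ := hq U (hU.mem_nhds hqU) T
    exact Set.disjoint_left.1 hUV htU (hT t ht)
  · rintro rfl U hU T
    obtain ⟨t, ht, ht'⟩ := ((h.eventually_mem hU).and (eventually_ge_atTop T)).exists
    exact ⟨t, ht', ht⟩

/-- finitely many attractors if all orbits converge to points of a finite set -/
theorem attractors [MeasurableSpace X] (μ : Measure X) {Φ : ℝ → X → X} (h0 : ∀ x, Φ 0 x = x)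
    (hg : ∀ s t x, Φ (s + t) x = Φ s (Φ t x)) (hc : Continuous (Function.uncurry Φ))
    {Z : Set X} (hZ : Z.Finite) (h : ∀ x, ∃ p ∈ Z, Tendsto (fun t => Φ t x) atTop (𝓝 p)) :
    FiniteAttractorsFlow μ Φ := by
  classical
  obtain ⟨Z', hZ'⟩ : ∃ Z' : Set X, Z' = {p | p ∈ Z ∧ 0 < μ {x | omegaFlow Φ x ⊆ {p}}} := ⟨_, rfl⟩
  have hmem : ∀ p, p ∈ Z' ↔ p ∈ Z ∧ 0 < μ {x | omegaFlow Φ x ⊆ {p}} := by
    intro p
    rw [hZ']
    rfl
  have hfin : Z'.Finite := hZ.subset fun p hp => ((hmem p).1 hp).1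
  have hfix : ∀ p ∈ Z', ∀ s, Φ s p = p := by
    intro p hp s
    rw [hmem] at hp
    obtain ⟨x, hx⟩ := nonempty_of_measure_ne_zero hp.2.ne'
    obtain ⟨p', -, hp'⟩ := h x
    have h1 := omega_of_tendsto hp'
    have hx' : omegaFlow Φ x ⊆ {p} := hx
    rw [h1, singleton_subset_iff, mem_singleton_iff] at hx'
    rw [hx'] at hp'
    have hcs : Continuous (Φ s) := hc.comp (Continuous.prodMk_right s)
    have h2 : Tendsto (fun t => Φ (s + t) x) atTop (𝓝 (Φ s p)) := by
      have h3 := (hcs.tendsto p).comp hp'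
      refine h3.congr fun t => ?_
      rw [Function.comp_apply, hg]
    have h4 : Tendsto (fun t => Φ (s + t) x) atTop (𝓝 p) :=
      hp'.comp (tendsto_atTop_add_const_left atTop s tendsto_id)
    exact tendsto_nhds_unique h2 h4
  refine ⟨hfin.toFinset.card, fun i => {((hfin.toFinset.equivFin).symm i : X)}, fun i => ?_, ?_⟩
  · have hp : ((hfin.toFinset.equivFin).symm i : X) ∈ Z' :=
      hfin.mem_toFinset.1 ((hfin.toFinset.equivFin).symm i).2
    refine ⟨fun t => ?_, ⟨_, rfl, ?_⟩, ?_⟩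
    · rw [image_singleton, hfix _ hp]
    · rw [singleton_subset_iff]
      exact subset_closure ⟨0, mem_Ici.2 le_rfl, h0 _⟩
    · exact ((hmem _).1 hp).2
  · have hsub : {x | ∀ i : Fin hfin.toFinset.card,
        ¬ omegaFlow Φ x ⊆ {((hfin.toFinset.equivFin).symm i : X)}} ⊆
        ⋃ p ∈ Z \ Z', {x | omegaFlow Φ x ⊆ {p}} := by
      intro x hx
      obtain ⟨p, hp, hpt⟩ := h x
      have h1 := omega_of_tendsto hpt
      rw [mem_iUnion₂]
      refine ⟨p, ⟨hp, fun hp' => ?_⟩, h1.subset⟩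
      apply hx (hfin.toFinset.equivFin ⟨p, hfin.mem_toFinset.2 hp'⟩)
      rw [Equiv.symm_apply_apply]
      exact h1.subset
    refine measure_mono_null hsub ?_
    rw [measure_biUnion_null_iff (hZ.sdiff).countable]
    intro p hp
    by_contra hne
    apply hp.2
    rw [hmem]
    exact ⟨hp.1, pos_iff_ne_zero.2 hne⟩

end

theorem las : S_LAS := by
  intro d Y H Φ hY hYp hH hHp hcrit hpos hfin hfl h0 hg hc
  have hquot := quot_toTorus (d := d)
  have hsurj := hquot.surjective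
  -- the function on the torus
  obtain ⟨h, hh⟩ : ∃ h : Torus d → ℝ, ∀ z, h (toTorus z) = H z := by
    refine ⟨fun x => H (Function.surjInv hsurj x), fun z => ?_⟩
    have h1 := (tor_eq_iff _ _).1 (Function.surjInv_eq hsurj (toTorus z))
    have h2 := hHp (Function.surjInv hsurj (toTorus z)) _ h1
    rw [add_sub_cancel] at h2
    exact h2.symm
  have hhc : Continuous h := by
    rw [hquot.isQuotientMap.continuous_iff]
    have : h ∘ toTorus = H := funext hh
    rw [this]
    exact hH.continuous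
  have hdH : Differentiable ℝ H := hH.differentiable (by norm_num)
  have hnn : ∀ z, 0 ≤ fderiv ℝ H z (Y z) := by
    intro z
    by_cases hz : fderiv ℝ H z = 0
    · rw [hz]; simp
    · exact (hpos z hz).le
  have hder : ∀ γ : ℝ → (Fin d → ℝ), (∀ t, HasDerivAt γ (Y (γ t)) t) → ∀ t,
      HasDerivAt (fun t => H (γ t)) (fderiv ℝ H (γ t) (Y (γ t))) t := by
    intro γ hγ t
    exact (hdH (γ t)).hasFDerivAt.comp_hasDerivAt t (hγ t)
  have hcs : ∀ s, Continuous (Φ s) := fun s => hc.comp (Continuous.prodMk_right s)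
  -- limit points are critical
  have hcl : ∀ x q, MapClusterPt q atTop (fun t => Φ t x) → q ∈ CritPts H := by
    intro x q hq
    obtain ⟨z, rfl⟩ := hsurj x
    obtain ⟨γ, hγ0, hγ, hγΦ⟩ := hfl z
    have hmono : Monotone fun t => h (Φ t (toTorus z)) := by
      have e1 : (fun t => h (Φ t (toTorus z))) = fun t => H (γ t) := by
        funext t
        rw [hγΦ, hh]
      rw [e1]
      refine monotone_of_deriv_nonneg (fun t => (hder γ hγ t).differentiableAt) fun t => ?_
      rw [(hder γ hγ t).deriv]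
      exact hnn _
    obtain ⟨c, hcc⟩ : ∃ c, Tendsto (fun t => h (Φ t (toTorus z))) atTop (𝓝 c) := by
      refine ⟨_, tendsto_atTop_ciSup hmono ?_⟩
      obtain ⟨B, hB⟩ := (isCompact_range hhc).bddAbove
      exact ⟨B, by rintro _ ⟨t, rfl⟩; exact hB ⟨_, rfl⟩⟩
    obtain ⟨U, hU, hUq⟩ := mapClusterPt_iff_ultrafilter.1 hq
    have hconst : ∀ s : ℝ, h (Φ s q) = c := by
      intro s
      have h1 : Tendsto (fun t => h (Φ (s + t) (toTorus z))) (U : Filter ℝ) (𝓝 (h (Φ s q))) := by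
        have h2 := ((hhc.comp (hcs s)).tendsto q).comp hUq
        refine h2.congr fun t => ?_
        show h (Φ s (Φ t (toTorus z))) = _
        rw [hg]
      have h3 : Tendsto (fun t => h (Φ (s + t) (toTorus z))) (U : Filter ℝ) (𝓝 c) :=
        (hcc.comp (tendsto_atTop_add_const_left atTop s tendsto_id)).mono_left hU
      exact tendsto_nhds_unique h1 h3
    obtain ⟨w, rfl⟩ := hsurj q
    obtain ⟨δ, hδ0, hδ, hδΦ⟩ := hfl w
    refine ⟨w, rfl, ?_⟩
    by_contra hne
    have h4 := hder δ hδ 0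
    have h5 : (fun t => H (δ t)) = fun _ => c := by
      funext t
      rw [← hh, ← hδΦ, hconst]
    rw [h5, hδ0] at h4
    have h6 := h4.unique (hasDerivAt_const (0 : ℝ) c)
    have h7 := hpos w hne
    rw [h6] at h7
    exact lt_irrefl _ h7
  have hconv : ∀ x, ∃ p ∈ CritPts H, Tendsto (fun t : ℝ => Φ t x) atTop (𝓝 p) := fun x =>
    conv_of_finite (hc.comp (Continuous.prodMk_left x)) hfin (hcl x)
  exact ⟨hconv, attractors volume h0 hg hc hfin hconv⟩

end Pool.Agent.Y210.MH
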